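import Mathlib
import Pool.Agent.H235Z.Ham.Defs
import Pool.Agent.H235Z.Ham.Main

namespace Pool.Agent.Results.MP_ee1662_pr.Threshold

open Filter Asymptotics Pool.Agent.H235Z.Ham

/-- For `1/2 ≤ η = o(n)` and `d = n/2 - η` (with an integer in `[d, n/2)`, e.g. `d` itself an
integer, or `η ≥ 1`), `η / n^2` is a `d`-threshold for Hamiltonicity of randomly perturbed
digraphs. -/
theorem result (η : ℕ → ℝ) (h1 : ∀ n, 1 / 2 ≤ η n) (h2 : η =o[atTop] fun n => (n : ℝ))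
    (h3 : ∀ᶠ n : ℕ in atTop, ∃ k : ℤ, (n : ℝ) / 2 - η n ≤ k ∧ (k : ℝ) < (n : ℝ) / 2) :
    IsThreshold (fun n => (n : ℝ) / 2 - η n) (fun n => η n / (n : ℝ) ^ 2) :=
  main η h1 h2 h3

end Pool.Agent.Results.MP_ee1662_pr.Threshold
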